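import Mathlib
import Pool.Agent.R163.LE.Glue

/-! Let `B` be an independent set of vertices of the graph `G`.  If the list edge-colouring
conjecture holds for `G - B`, and `G` has an optimal edge colouring such that the sets of the
colours of the edges of `G - B` at the vertices `x` with a neighbour in `B` form a chain, then the
conjecture holds for `G`.  In particular bipartite graphs may be attached at a vertex. -/

set_option autoImplicit false

namespace Pool.Agent.Results.MP_2f9829_co.AttachedIndependentSet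

/-- `G` can be properly edge-coloured from all lists of size at least `k`. -/
def EdgeChoosable {V : Type} (G : SimpleGraph V) (k : ℕ) : Prop :=
  ∀ L : G.edgeSet → Finset ℕ, (∀ e, k ≤ (L e).card) →
    ∃ c : G.edgeSet → ℕ, (∀ e, c e ∈ L e) ∧ ∀ e e', G.lineGraph.Adj e e' → c e ≠ c e'

/-- The colours of the edges at `x` that have both ends outside `B`. -/
def InnerColours {V : Type} (G : SimpleGraph V) (B : Set V) {r : ℕ}
    (c : G.lineGraph.Coloring (Fin r)) (x : V) : Set (Fin r) :=
  {i | ∃ e : G.edgeSet, x ∈ (e : Sym2 V) ∧ (∀ z ∈ (e : Sym2 V), z ∉ B) ∧ c e = i}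

section rank

variable {r : ℕ}

open Classical in
/-- Position of a colour when the colours are sorted by decreasing weight. -/
noncomputable def rank (w : Fin r → ℕ) (i : Fin r) : ℕ :=
  (Finset.univ.filter (fun j => w i < w j ∨ (w i = w j ∧ j < i))).card

theorem rank_lt (w : Fin r → ℕ) (i : Fin r) : rank w i < r := by
  classical
  have h : (Finset.univ.filter (fun j => w i < w j ∨ (w i = w j ∧ j < i))) ⊂
      (Finset.univ : Finset (Fin r)) := by
    rw [Finset.ssubset_univ_iff]
    intro h
    have := Finset.mem_univ i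
    rw [← h, Finset.mem_filter] at this
    omega
  have h1 := Finset.card_lt_card h
  rw [Finset.card_univ, Fintype.card_fin] at h1
  exact h1

theorem rank_lt_rank (w : Fin r → ℕ) {i i' : Fin r}
    (h : w i' < w i ∨ (w i' = w i ∧ i < i')) : rank w i < rank w i' := by
  classical
  apply Finset.card_lt_card
  rw [Finset.ssubset_iff_of_subset]
  · refine ⟨i, ?_, ?_⟩
    · rw [Finset.mem_filter]
      exact ⟨Finset.mem_univ _, h⟩
    · rw [Finset.mem_filter]
      omega
  · intro j hj
    rw [Finset.mem_filter] at hj ⊢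
    refine ⟨Finset.mem_univ _, ?_⟩
    rcases hj.2 with h1 | h1 <;> rcases h with h2 | h2
    · left; omega
    · left; omega
    · left; omega
    · right
      exact ⟨by omega, h1.2.trans h2.2⟩

theorem rank_injective (w : Fin r → ℕ) : Function.Injective (rank w) := by
  intro i i' h
  by_contra hne
  rcases lt_trichotomy (w i) (w i') with h1 | h1 | h1
  · have := rank_lt_rank w (i := i') (i' := i) (Or.inl h1)
    omega
  · rcases lt_or_gt_of_ne hne with h2 | h2
    · have := rank_lt_rank w (i := i) (i' := i') (Or.inr ⟨h1.symm, h2⟩)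
      omega
    · have := rank_lt_rank w (i := i') (i' := i) (Or.inr ⟨h1, h2⟩)
      omega
  · have := rank_lt_rank w (i := i) (i' := i') (Or.inl h1)
    omega

end rank

/-- The list edge-colouring conjecture passes from `H = G - B` (with the vertices of `B` as
isolated vertices) to `G`. -/
theorem result (V : Type) [Fintype V] (G H : SimpleGraph V) (B : Set V)
    (hB : ∀ x y, G.Adj x y → x ∉ B ∨ y ∉ B)
    (hH : ∀ x y, H.Adj x y ↔ G.Adj x y ∧ x ∉ B ∧ y ∉ B)
    (hLE : ∀ k, H.lineGraph.Colorable k → EdgeChoosable H k)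
    (r : ℕ) (hr : ∀ k, G.lineGraph.Colorable k → r ≤ k)
    (c : G.lineGraph.Coloring (Fin r))
    (hchain : ∀ x ∉ B, ∀ x' ∉ B, (∃ y ∈ B, G.Adj x y) → (∃ y ∈ B, G.Adj x' y) →
      InnerColours G B c x ⊆ InnerColours G B c x' ∨ InnerColours G B c x' ⊆ InnerColours G B c x)
    (k : ℕ) : G.lineGraph.Colorable k ↔ EdgeChoosable G k := by
  classical
  constructor
  swap
  · intro h
    obtain ⟨c, hc, hc'⟩ := h (fun _ => Finset.range k) (fun _ => by simp)
    exact ⟨SimpleGraph.Coloring.mk (fun e => (⟨c e, Finset.mem_range.1 (hc e)⟩ : Fin k))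
      (fun {e e'} hee' heq => hc' e e' hee' (congrArg Fin.val heq))⟩
  intro hcol
  have hrk := hr k hcol
  -- equal colours at a vertex
  have same : ∀ (x y y' : V) (h : G.Adj x y) (h' : G.Adj x y'),
      c ⟨s(x, y), h⟩ = c ⟨s(x, y'), h'⟩ → y = y' := by
    intro x y y' h h' hcc
    by_contra hne
    refine c.valid (v := ⟨s(x, y), h⟩) (w := ⟨s(x, y'), h'⟩) ?_ hcc
    rw [SimpleGraph.lineGraph_adj_iff_exists]
    refine ⟨fun he => hne ?_, x, Sym2.mem_mk_left _ _, Sym2.mem_mk_left _ _⟩
    have := Subtype.mk.inj he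
    rw [Sym2.eq_iff] at this
    rcases this with h1 | h1
    · exact h1.2
    · rw [h1.2, ← h1.1]
  have hHc : H.lineGraph.Colorable r := by
    have hHG : ∀ e, e ∈ H.edgeSet → e ∈ G.edgeSet := by
      intro e
      induction e using Sym2.ind with
      | _ a b =>
        intro h
        exact ((hH a b).1 h).1
    refine ⟨SimpleGraph.Coloring.mk (fun e => c ⟨e, hHG e e.2⟩) (fun {e e'} hee' => ?_)⟩
    apply c.valid
    rw [SimpleGraph.lineGraph_adj_iff_exists] at hee' ⊢
    refine ⟨fun h => hee'.1 (Subtype.ext (Subtype.mk.inj h)), hee'.2⟩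
  let P : V → Prop := fun x => x ∉ B ∧ ∃ y ∈ B, G.Adj x y
  let w : Fin r → ℕ := fun i => (Finset.univ.filter (fun x => P x ∧ i ∈ InnerColours G B c x)).card
  have hw : ∀ x, P x → ∀ i, i ∉ InnerColours G B c x → ∀ j ∈ InnerColours G B c x, w i < w j := by
    intro x hx i hi j hj
    apply Finset.card_lt_card
    rw [Finset.ssubset_iff_of_subset]
    · refine ⟨x, ?_, ?_⟩
      · rw [Finset.mem_filter]
        exact ⟨Finset.mem_univ _, hx, hj⟩
      · rw [Finset.mem_filter]
        exact fun h => hi h.2.2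
    · intro x' hx'
      rw [Finset.mem_filter] at hx' ⊢
      refine ⟨Finset.mem_univ _, hx'.2.1, ?_⟩
      rcases hchain x hx.1 x' hx'.2.1.1 hx.2 hx'.2.1.2 with h | h
      · exact h hj
      · exact absurd (h hx'.2.2) hi
  let f : V → V → ℕ := fun x y => if h : G.Adj x y then rank w (c ⟨s(x, y), h⟩) + 1 else 0
  have hf : ∀ x y (h : G.Adj x y), f x y = rank w (c ⟨s(x, y), h⟩) + 1 := by
    intro x y h
    simp only [f]
    rw [dif_pos h]
  have hchG : Pool.Agent.R163.LE.Choos G r := by
    refine Pool.Agent.R163.LE.glue G H {x | x ∉ B} hH hB r (hLE r hHc) f ?_ ?_ ?_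
    · intro x _ y _ y' _ h h' hff
      rw [hf x y h, hf x y' h'] at hff
      exact same x y y' h h' (rank_injective w (by omega))
    · intro y _ x _ x' _ h h' hff
      rw [hf x y h, hf x' y h'] at hff
      have h1 : c ⟨s(x, y), h⟩ = c ⟨s(x', y), h'⟩ := rank_injective w (by omega)
      apply same y x x' h.symm h'.symm
      have e1 : (⟨s(y, x), h.symm⟩ : G.edgeSet) = ⟨s(x, y), h⟩ := Subtype.ext Sym2.eq_swap
      have e2 : (⟨s(y, x'), h'.symm⟩ : G.edgeSet) = ⟨s(x', y), h'⟩ := Subtype.ext Sym2.eq_swap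
      rw [e1, e2]
      exact h1
    · intro x hx y hy h
      have hyB : y ∈ B := by
        by_contra hyB
        exact hy hyB
      have hPx : P x := ⟨hx, y, hyB, h⟩
      rw [hf x y h]
      refine ⟨?_, rank_lt w _⟩
      have hni : c ⟨s(x, y), h⟩ ∉ InnerColours G B c x := by
        rintro ⟨e, hxe, hz, hce⟩
        obtain ⟨z, hz'⟩ := hxe
        obtain ⟨e, he⟩ := e
        simp only at hz' hz
        subst hz'
        have hyz := same x z y he h hce
        subst hyz
        exact hz z (Sym2.mem_mk_right _ _) hyB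
      -- inner degree at most the number of inner colours
      have h1 : Pool.Agent.R671.LE.inDeg G {x | x ∉ B} x ≤ (InnerColours G B c x).ncard := by
        rw [Pool.Agent.R671.LE.inDeg]
        refine Set.ncard_le_ncard_of_injOn
          (fun z => if hz : G.Adj x z then c ⟨s(x, z), hz⟩ else c ⟨s(x, y), h⟩) ?_ ?_ (Set.toFinite _)
        · intro z hz
          simp only [dif_pos hz.1]
          refine ⟨⟨s(x, z), hz.1⟩, Sym2.mem_mk_left _ _, ?_, rfl⟩
          intro a ha
          rw [Sym2.mem_iff] at ha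
          rcases ha with rfl | rfl
          · exact hx
          · exact hz.2.1 hx
        · intro z hz z' hz' hzz
          simp only [dif_pos hz.1, dif_pos hz'.1] at hzz
          exact same x z z' hz.1 hz'.1 hzz
      have h2 : (InnerColours G B c x).ncard ≤ rank w (c ⟨s(x, y), h⟩) := by
        rw [Set.ncard_eq_toFinset_card' (InnerColours G B c x)]
        apply Finset.card_le_card
        intro j hj
        rw [Set.mem_toFinset] at hj
        rw [Finset.mem_filter]
        exact ⟨Finset.mem_univ _, Or.inl (hw x hPx _ hni j hj)⟩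
      omega
  intro L hL
  exact hchG L (fun e => hrk.trans (hL e))

/-- A bipartite graph attached at a vertex `v`: if all neighbours of the vertices of `C` are in
`C ∪ {v}`, and `C ∪ {v}` has a proper colouring with two colours, then the list edge-colouring
conjecture for `G - C` implies the conjecture for `G`.  So a smallest counterexample has no
bipartite end block. -/
theorem endBlock (V : Type) [Fintype V] (G H : SimpleGraph V) (C : Set V) (v : V) (hv : v ∉ C)
    (hC : ∀ x y, G.Adj x y → x ∈ C → y ∈ C ∨ y = v)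
    (s : V → Bool) (hs : ∀ x y, G.Adj x y → x ∈ C → s x ≠ s y)
    (hH : ∀ x y, H.Adj x y ↔ G.Adj x y ∧ x ∉ C ∧ y ∉ C)
    (hLE : ∀ k, H.lineGraph.Colorable k → EdgeChoosable H k) (k : ℕ) :
    G.lineGraph.Colorable k ↔ EdgeChoosable G k := by
  classical
  constructor
  swap
  · intro h
    obtain ⟨c, hc, hc'⟩ := h (fun _ => Finset.range k) (fun _ => by simp)
    exact ⟨SimpleGraph.Coloring.mk (fun e => (⟨c e, Finset.mem_range.1 (hc e)⟩ : Fin k))
      (fun {e e'} hee' heq => hc' e e' hee' (congrArg Fin.val heq))⟩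
  intro hcol
  have hex : ∃ r, G.lineGraph.Colorable r := ⟨k, hcol⟩
  obtain ⟨c⟩ := Nat.find_spec hex
  -- the side of `C` that does not contain `v`
  have key : ∀ x y, G.Adj x y → ¬ (x ∈ C ∧ s x ≠ s v) → ¬ (y ∈ C ∧ s y ≠ s v) →
      x ∉ C ∧ y ∉ C := by
    have aux : ∀ x y, G.Adj x y → ¬ (x ∈ C ∧ s x ≠ s v) → ¬ (y ∈ C ∧ s y ≠ s v) → x ∉ C := by
      intro x y h hx hy hxC
      have h1 : s x = s v := by
        by_contra hne
        exact hx ⟨hxC, hne⟩
      have h2 := hs x y h hxC
      rcases hC x y h hxC with h3 | rfl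
      · apply hy
        exact ⟨h3, fun h4 => h2 (h1.trans h4.symm)⟩
      · exact h2 h1
    intro x y h hx hy
    exact ⟨aux x y h hx hy, aux y x h.symm hy hx⟩
  refine (result V G H {x | x ∈ C ∧ s x ≠ s v} ?_ ?_ hLE (Nat.find hex)
    (fun k hk => Nat.find_min' hex hk) c ?_ k).1 hcol
  · intro x y h
    by_contra hcon
    push Not at hcon
    obtain ⟨⟨hx, hx'⟩, ⟨hy, hy'⟩⟩ := hcon
    have h1 := hs x y h hx
    cases h2 : s x <;> cases h3 : s y <;> cases h4 : s v <;> simp_all
  · intro x y
    rw [hH]
    constructor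
    · rintro ⟨h, hx, hy⟩
      exact ⟨h, fun h' => hx h'.1, fun h' => hy h'.1⟩
    · rintro ⟨h, hx, hy⟩
      exact ⟨h, key x y h hx hy⟩
  · have hemp : ∀ x, x ≠ v → x ∉ {x | x ∈ C ∧ s x ≠ s v} →
        (∃ y ∈ {x | x ∈ C ∧ s x ≠ s v}, G.Adj x y) →
        InnerColours G {x | x ∈ C ∧ s x ≠ s v} c x = ∅ := by
      intro x hxv hx hy
      obtain ⟨y, hy, hxy⟩ := hy
      have hxC : x ∈ C := by
        rcases hC y x hxy.symm hy.1 with h | h
        · exact h
        · exact absurd h hxv
      rw [Set.eq_empty_iff_forall_notMem]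
      rintro i ⟨e, hxe, hz, -⟩
      obtain ⟨z, hz'⟩ := hxe
      obtain ⟨e, he⟩ := e
      simp only at hz' hz
      subst hz'
      exact (key x z he (hz x (Sym2.mem_mk_left _ _)) (hz z (Sym2.mem_mk_right _ _))).1 hxC
    intro x hx x' hx' hy hy'
    by_cases h : x = v
    · by_cases h' : x' = v
      · rw [h, h']
        exact Or.inl (Set.Subset.refl _)
      · rw [hemp x' h' hx' hy']
        exact Or.inr (Set.empty_subset _)
    · rw [hemp x h hx hy]
      exact Or.inl (Set.empty_subset _)

end Pool.Agent.Results.MP_2f9829_co.AttachedIndependentSet
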