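import Pool.Agent.R804.LD.Fin

/-!
# The list edge-colouring conjecture for Cartesian products with hypercubes, even cycles and forests

Every finite graph of maximum degree at most `r + 1` satisfies the list edge-colouring conjecture
after taking the Cartesian product with the `r`-dimensional hypercube. More generally let `G` be a
finite graph of maximum degree `d` which is `k`-degenerate and let `H` be a mirror graph (for example
a Cartesian product of hypercubes, even cycles and forests) of maximum degree `r ≥ k - 1`. Then all
edges of the Cartesian product of `G` and `H` can be coloured from lists of `d + r` colours.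

The proof: the signed number of edge colourings with `D` colours of two copies of a graph joined by
a matching is a sum of squares, and adding an edge whose ends have degree sum less than `D` keeps
some signed number of edge colourings with prescribed sets of colours at the vertices nonzero
(a Lefschetz type inequality for the Boolean lattice).
-/

set_option autoImplicit false

namespace Pool.Agent.Results.MP_2f9829_co.CartesianProducts

open Pool.Agent.R804.LD

/-- The list edge colouring conjecture for the single graph `G`, in the form of the frozen statement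
`S07911`: for every `k`, the edges of `G` can be properly coloured with `k` colours if and only if
`G` has a proper edge colouring from every list assignment with lists of at least `k` colours. -/
def ListEdgeConjectureFor {V : Type} (G : SimpleGraph V) : Prop :=
  ∀ k : ℕ, G.lineGraph.Colorable k ↔
    ∀ L : G.edgeSet → Finset ℕ, (∀ e, k ≤ (L e).card) →
      ∃ f : G.edgeSet → ℕ, (∀ e, f e ∈ L e) ∧
        ∀ e e', G.lineGraph.Adj e e' → f e ≠ f e'

/-- `G` has a proper edge colouring from all lists of at least `D` colours. -/
def EdgeChoosable {V : Type} (D : ℕ) (G : SimpleGraph V) : Prop :=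
  ∀ L : G.edgeSet → Finset ℕ, (∀ e, D ≤ (L e).card) →
    ∃ f : G.edgeSet → ℕ, (∀ e, f e ∈ L e) ∧ ∀ e e', G.lineGraph.Adj e e' → f e ≠ f e'

/-- The smallest class of finite graphs which contains the edgeless graphs and is closed under
isomorphic copies of subgraphs, under adding an edge `uv` with `deg u + deg v < D`, and under
doubling: `dblG S G` consists of two disjoint copies of `G` and the edges joining the two copies of
`v`, for all `v` in a set `S` of vertices of degree less than `D`. -/
inductive Built (D : ℕ) : (V : Type) → SimpleGraph V → Prop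
  | edgeless (V : Type) (hV : Finite V) : Built D V ⊥
  | addEdge (V : Type) (G G' : SimpleGraph V) (u v : V) (huv : u ≠ v) (hn : ¬ G.Adj u v)
      (hd : (G.neighborSet u).ncard + (G.neighborSet v).ncard < D)
      (hG' : ∀ x y, G'.Adj x y ↔ G.Adj x y ∨ s(x, y) = s(u, v)) (h : Built D V G) : Built D V G'
  | double (V : Type) (G : SimpleGraph V) (S : Set V)
      (hS : ∀ v ∈ S, (G.neighborSet v).ncard < D) (h : Built D V G) :
      Built D (V × Bool) (dblG S G)
  | embed (V V' : Type) (G : SimpleGraph V) (G' : SimpleGraph V') (φ : V' → V)
      (hφ : Function.Injective φ) (hom : ∀ u v, G'.Adj u v → G.Adj (φ u) (φ v))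
      (h : Built D V G) : Built D V' G'

theorem built_spec {D : ℕ} {V : Type} {G : SimpleGraph V} (h : Built D V G) :
    Finite V ∧ GG D G := by
  induction h with
  | edgeless V hV => exact ⟨hV, gg_bot D⟩
  | addEdge V G G' u v huv hn hd hG' h ih =>
    exact ⟨ih.1, gg_add G ih.2 u v huv hn hd G' hG'⟩
  | double V G S hS h ih =>
    have := ih.1
    exact ⟨inferInstance, gg_dbl G ih.2 S hS⟩
  | embed V V' G G' φ hφ hom h ih =>
    have := ih.1
    exact ⟨Finite.of_injective φ hφ, gg_sub G' G φ hφ hom ih.2⟩

/-- (1) Let `G` be a finite graph of maximum degree at most `r + 1`. The list edge-colouring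
conjecture holds for the Cartesian product of `G` and the hypercube `cube r`.
(2) Let `G` be a finite graph with all degrees at most `d` such that every nonempty set `X` of
vertices contains a vertex with at most `k` neighbours in `X` (`Degen k G`), `k ≤ r + 1`, and let `H`
be in `Mirror r`. Then the Cartesian product is `(d + r)`-edge-choosable, and if `d` and `r` are
attained as degrees the list edge-colouring conjecture holds for it.
(3) `Mirror r` contains the hypercube of dimension `r`, the forests of maximum degree at most `r`,
for `r = 2` all even cycles, and the product of a graph in `Mirror r` and one in `Mirror r'` is in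
`Mirror (r + r')`.
(4) All graphs in `Built D` are `D`-edge-choosable and the list edge-colouring conjecture holds for
those which are not `(D - 1)`-edge-colourable. -/
theorem result :
    (∀ (r : ℕ) (V : Type) [Finite V] (G : SimpleGraph V),
      (∀ v, (G.neighborSet v).ncard ≤ r + 1) → ListEdgeConjectureFor (G.boxProd (cube r))) ∧
    (∀ (d k r : ℕ) (V : Type) [Finite V] (G : SimpleGraph V),
      (∀ v, (G.neighborSet v).ncard ≤ d) → Degen k G → k ≤ r + 1 →
      ∀ (W : Type) (H : SimpleGraph W), Mirror r W H →
        EdgeChoosable (d + r) (G.boxProd H) ∧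
        ((∃ v, (G.neighborSet v).ncard = d) → (∃ w, (H.neighborSet w).ncard = r) →
          ListEdgeConjectureFor (G.boxProd H))) ∧
    ((∀ r, Mirror r (Fin r → Bool) (cube r)) ∧
      (∀ m, 2 ≤ m → Mirror 2 (Fin (2 * m)) (SimpleGraph.cycleGraph (2 * m))) ∧
      (∀ (r : ℕ) (W : Type) [Finite W] (H : SimpleGraph W), Degen 1 H →
        (∀ w, (H.neighborSet w).ncard ≤ r) → Mirror r W H) ∧
      (∀ (r r' : ℕ) (W W' : Type) (H : SimpleGraph W) (H' : SimpleGraph W'), Mirror r W H →
        Mirror r' W' H' → Mirror (r + r') (W × W') (H.boxProd H'))) ∧
    (∀ (D : ℕ) (V : Type) (G : SimpleGraph V), Built D V G →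
      EdgeChoosable D G ∧ (¬ G.lineGraph.Colorable (D - 1) → ListEdgeConjectureFor G)) := by
  have main : ∀ (d k r : ℕ) (V : Type) [Finite V] (G : SimpleGraph V),
      (∀ v, (G.neighborSet v).ncard ≤ d) → Degen k G → k ≤ r + 1 →
      ∀ (W : Type) (H : SimpleGraph W), Mirror r W H → GG (d + r) (G.boxProd H) := by
    intro d k r V _ G hd hk hkr W H hH
    refine gg_prod G (gg_degen G hd hk (by omega)) (fun v => ?_) hH
    exact Nat.add_le_add_right (hd v) r
  have main2 : ∀ (d k r : ℕ) (V : Type) [Finite V] (G : SimpleGraph V),
      (∀ v, (G.neighborSet v).ncard ≤ d) → Degen k G → k ≤ r + 1 →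
      ∀ (W : Type) (H : SimpleGraph W), Mirror r W H →
      (∃ v, (G.neighborSet v).ncard = d) → (∃ w, (H.neighborSet w).ncard = r) →
      ListEdgeConjectureFor (G.boxProd H) := by
    rintro d k r V _ G hd hk hkr W H hH ⟨v, hv⟩ ⟨w, hw⟩ c
    have := mirror_finite hH
    refine lec_of (D := d + r) _ (main d k r V G hd hk hkr W H hH) ⟨(v, w), ?_⟩ c
    rw [dgr_box]
    exact Nat.add_le_add hv.symm.le hw.symm.le
  refine ⟨?_, ?_, ⟨mirror_cube, mirror_cycle, ?_, ?_⟩, ?_⟩
  · intro r V _ G hG
    classical
    rcases isEmpty_or_nonempty V with hV | hV
    · intro c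
      have h1 : (G.boxProd (cube r)) = ⊥ := by
        ext ⟨v, _⟩ _
        exact hV.elim v
      rw [h1]
      have hE : IsEmpty ((⊥ : SimpleGraph (V × (Fin r → Bool))).edgeSet) := by
        rw [SimpleGraph.edgeSet_bot]
        infer_instance
      constructor
      · intro _ L _
        exact ⟨fun e => hE.elim e, fun e => hE.elim e, fun e => hE.elim e⟩
      · intro _
        exact ⟨SimpleGraph.Coloring.mk (fun e => hE.elim e) (fun {e} _ _ => hE.elim e)⟩
    · obtain ⟨v, hv⟩ := Finite.exists_max (fun v => (G.neighborSet v).ncard)
      refine main2 ((G.neighborSet v).ncard) ((G.neighborSet v).ncard) r V G hv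
        (degen_of_deg G _ hv) (hG v) _ (cube r) (mirror_cube r) ⟨v, rfl⟩
        ⟨fun _ => false, le_antisymm ?_ (le_dgr_cube r _)⟩
      exact mirror_deg (mirror_cube r) _
  · intro d k r V _ G hd hk hkr W H hH
    have := mirror_finite hH
    exact ⟨gg_EL _ (main d k r V G hd hk hkr W H hH), main2 d k r V G hd hk hkr W H hH⟩
  · intro r W _ H h1 h2
    exact mirror_forest H h1 h2
  · intro r r' W W' H H' h h'
    exact mirror_prod h h'
  · intro D V G h
    have := (built_spec h).1
    have h1 := gg_EL G (built_spec h).2
    exact ⟨h1, fun h2 c => Pool.Agent.W426.LE.EL.lec G D h1 h2 c⟩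

end Pool.Agent.Results.MP_2f9829_co.CartesianProducts
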