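import Pool.Agent.R671.LE.Choosable
import Pool.Agent.R671.LE.Cor

/-!
# The list edge-colouring conjecture for graphs with few edges inside the two sides

Let `G` be a finite simple graph, `A` a set of vertices and call an edge inner if its two ends are
both in `A` or both outside `A`; the other edges are cross edges. Suppose that the ends of every
inner edge are, together, on at most `r + 1` inner edges (counted with the edge itself at both ends)
and that the cross edges have a proper colouring `f` with `inDeg x < f x y ≤ r - inDeg y` for `x` in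
`A`, `y` not in `A`. Then `G` is edge-colourable from all lists of size `r`; if moreover `G` has no
proper edge colouring with fewer than `r` colours, the list edge-colouring conjecture holds for `G`.
-/

set_option autoImplicit false

namespace Pool.Agent.Results.MP_2f9829_co.FewInnerEdges

open Pool.Agent.R671.LE

theorem result (V : Type) [Fintype V] (G : SimpleGraph V) (A : Set V) (r : ℕ)
    (hr : ∀ k, G.lineGraph.Colorable k → r ≤ k)
    (hin : ∀ x y, G.Adj x y → (x ∈ A ↔ y ∈ A) → inDeg G A x + inDeg G A y ≤ r + 1)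
    (f : V → V → ℕ)
    (hf1 : ∀ x ∈ A, ∀ y ∉ A, ∀ y' ∉ A, G.Adj x y → G.Adj x y' → f x y = f x y' → y = y')
    (hf2 : ∀ y ∉ A, ∀ x ∈ A, ∀ x' ∈ A, G.Adj x y → G.Adj x' y → f x y = f x' y → x = x')
    (hf3 : ∀ x ∈ A, ∀ y ∉ A, G.Adj x y → inDeg G A x < f x y ∧ f x y + inDeg G A y ≤ r)
    (k : ℕ) :
    G.lineGraph.Colorable k ↔
      ∀ L : G.edgeSet → Finset ℕ, (∀ e, k ≤ (L e).card) →
        ∃ c : G.edgeSet → ℕ, (∀ e, c e ∈ L e) ∧
          ∀ e e', G.lineGraph.Adj e e' → c e ≠ c e' := by
  classical
  constructor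
  · intro hcol L hL
    exact choosable V G A r hin f hf1 hf2 hf3 L (fun e => (hr k hcol).trans (hL e))
  · intro h
    obtain ⟨c, hc, hc'⟩ := h (fun _ => Finset.range k) (fun _ => by simp)
    exact ⟨SimpleGraph.Coloring.mk (fun e => (⟨c e, Finset.mem_range.1 (hc e)⟩ : Fin k))
      (fun {e e'} hee' heq => hc' e e' hee' (congrArg Fin.val heq))⟩

/-- The case of an optimal edge colouring with two colour classes that contain all edges inside `A`
and all edges inside the complement of `A`, respectively. -/
theorem twoClasses (V : Type) [Fintype V] (G : SimpleGraph V) (A : Set V) (r : ℕ)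
    (C : G.lineGraph.Coloring (Fin r)) (i j : Fin r) (hij : i ≠ j)
    (hA : ∀ e : G.edgeSet, (∀ x ∈ (e : Sym2 V), x ∈ A) → C e = i)
    (hB : ∀ e : G.edgeSet, (∀ x ∈ (e : Sym2 V), x ∉ A) → C e = j)
    (L : G.edgeSet → Finset ℕ) (hL : ∀ e, r ≤ (L e).card) :
    ∃ c : G.edgeSet → ℕ, (∀ e, c e ∈ L e) ∧ ∀ e e', G.lineGraph.Adj e e' → c e ≠ c e' :=
  Cor.twoClasses (fun V _ G A r hin f hf1 hf2 hf3 L hL =>
    choosable V G A r hin f hf1 hf2 hf3 L hL) V G A r C i j hij hA hB L hL

/-- The list edge-colouring conjecture holds for every graph that becomes bipartite when one edge is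
deleted. -/
theorem oneEdge (V : Type) [Fintype V] (G : SimpleGraph V) (e : Sym2 V)
    (hb : (G.deleteEdges {e}).Colorable 2) (k : ℕ) :
    G.lineGraph.Colorable k ↔
      ∀ L : G.edgeSet → Finset ℕ, (∀ e, k ≤ (L e).card) →
        ∃ f : G.edgeSet → ℕ, (∀ e, f e ∈ L e) ∧
          ∀ e e', G.lineGraph.Adj e e' → f e ≠ f e' :=
  Cor.oneEdge (fun V _ G A r hin f hf1 hf2 hf3 L hL =>
    choosable V G A r hin f hf1 hf2 hf3 L hL) V G e hb k

end Pool.Agent.Results.MP_2f9829_co.FewInnerEdges
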