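import Pool.Agent.R804.LD.Cpl

/-!
# The list edge-colouring conjecture for Cartesian products with graphs of nonzero signed number

Let `G` be a `d`-regular graph with a 1-factorization for which the signed number of all
1-factorizations is not zero (Alon-Tarsi condition), for example `K_{p+1}` or `K_{2p}`, `p` an odd
prime. Then the list edge-colouring conjecture holds for the Cartesian product of `G` with every
mirror graph: with hypercubes, even cycles, forests and their products. More generally the graphs
for which some signed number of edge colourings with `D` colours and prescribed sets of colours at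
the vertices is nonzero are closed under products with mirror graphs, doublings and the addition of
light edges.
-/

set_option autoImplicit false

namespace Pool.Agent.Results.MP_2f9829_co.ProductsWithSignedGraphs

open Pool.Agent.R804.LD

/-- The list edge colouring conjecture for the single graph `G`, in the form of the frozen statement
`S07911`: for every `k`, the edges of `G` can be properly coloured with `k` colours if and only if
`G` has a proper edge colouring from every list assignment with lists of at least `k` colours. -/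
def ListEdgeConjectureFor {V : Type} (G : SimpleGraph V) : Prop :=
  ∀ k : ℕ, G.lineGraph.Colorable k ↔
    ∀ L : G.edgeSet → Finset ℕ, (∀ e, k ≤ (L e).card) →
      ∃ f : G.edgeSet → ℕ, (∀ e, f e ∈ L e) ∧
        ∀ e e', G.lineGraph.Adj e e' → f e ≠ f e'

/-- `G` has a proper edge colouring from all lists of at least `D` colours. -/
def EdgeChoosable {V : Type} (D : ℕ) (G : SimpleGraph V) : Prop :=
  ∀ L : G.edgeSet → Finset ℕ, (∀ e, D ≤ (L e).card) →
    ∃ f : G.edgeSet → ℕ, (∀ e, f e ∈ L e) ∧ ∀ e e', G.lineGraph.Adj e e' → f e ≠ f e'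

/-- `F 0, …, F (d - 1)` is a 1-factorization of the simple graph `G`: the neighbours of `v` are the
`d` different vertices `F 0 v, …, F (d - 1) v`, and each `F i` is an involution. -/
def IsFactorizationOf {V : Type} (G : SimpleGraph V) {d : ℕ} (F : Fin d → V → V) : Prop :=
  (∀ i v, F i (F i v) = v) ∧ (∀ v i j, F i v = F j v → i = j) ∧
    ∀ v w, G.Adj v w ↔ ∃ i, F i v = w

open Classical in
/-- The signed number of the proper edge colourings with `d` colours. Such a colouring is a family of
permutations `σ v` of the colours, where `σ v i` is the colour of the edge joining `v` and `F i v`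
(so `σ (F i v) i = σ v i`); it is counted with the product of the signs of the `σ v`. -/
noncomputable def signedNumber {d : ℕ} {V : Type} [Fintype V] (F : Fin d → V → V) : ℤ :=
  ∑ σ ∈ Finset.univ.filter (fun σ : V → Equiv.Perm (Fin d) => ∀ v i, σ (F i v) i = σ v i),
    ∏ v, ((Equiv.Perm.sign (σ v) : ℤˣ) : ℤ)

/-- The smallest family of classes of finite graphs such that `Seeded D` contains the edgeless
graphs, the `D`-regular graphs with a 1-factorization and nonzero signed number, the complete graphs
`K_{p+1}` for `D = p` and `K_{2p}` for `D = 2p - 1` (`p` an odd prime) and all members of `Seeded D'`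
for `D' ≤ D`, and is closed under isomorphic copies of subgraphs, under adding an edge `uv` with
`deg u + deg v < D`, under doubling along a set of vertices of degree less than `D`, and under the
Cartesian product with a graph in `Mirror r` if all degrees are at most `D - r`. -/
inductive Seeded : ℕ → (V : Type) → SimpleGraph V → Prop
  | edgeless (D : ℕ) (V : Type) (hV : Finite V) : Seeded D V ⊥
  | signed (D : ℕ) (V : Type) [Fintype V] (G : SimpleGraph V) (F : Fin D → V → V)
      (hF : IsFactorizationOf G F) (hN : signedNumber F ≠ 0) : Seeded D V G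
  | complete (p : ℕ) (hp : p.Prime) (hp2 : p ≠ 2) (V : Type) (hV : Finite V)
      (hc : Nat.card V = p + 1) : Seeded p V ⊤
  | completeTwo (p : ℕ) (hp : p.Prime) (hp2 : p ≠ 2) (V : Type) (hV : Finite V)
      (hc : Nat.card V = 2 * p) : Seeded (2 * p - 1) V ⊤
  | more (D D' : ℕ) (hD : D' ≤ D) (V : Type) (G : SimpleGraph V) (h : Seeded D' V G) :
      Seeded D V G
  | addEdge (D : ℕ) (V : Type) (G G' : SimpleGraph V) (u v : V) (huv : u ≠ v)
      (hn : ¬ G.Adj u v) (hd : (G.neighborSet u).ncard + (G.neighborSet v).ncard < D)
      (hG' : ∀ x y, G'.Adj x y ↔ G.Adj x y ∨ s(x, y) = s(u, v)) (h : Seeded D V G) :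
      Seeded D V G'
  | double (D : ℕ) (V : Type) (G : SimpleGraph V) (S : Set V)
      (hS : ∀ v ∈ S, (G.neighborSet v).ncard < D) (h : Seeded D V G) :
      Seeded D (V × Bool) (dblG S G)
  | embed (D : ℕ) (V V' : Type) (G : SimpleGraph V) (G' : SimpleGraph V') (φ : V' → V)
      (hφ : Function.Injective φ) (hom : ∀ u v, G'.Adj u v → G.Adj (φ u) (φ v))
      (h : Seeded D V G) : Seeded D V' G'
  | product (D r : ℕ) (V W : Type) (G : SimpleGraph V) (H : SimpleGraph W)
      (hd : ∀ v, (G.neighborSet v).ncard + r ≤ D) (hH : Mirror r W H) (h : Seeded D V G) :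
      Seeded D (V × W) (G.boxProd H)

theorem signed_eq {d : ℕ} {V : Type} [Fintype V] (F : Fin d → V → V) :
    signedNumber F = Pool.Agent.TH378.LC.AT F := by
  classical
  unfold signedNumber Pool.Agent.TH378.LC.AT
  refine Finset.sum_congr ?_ fun _ _ => rfl
  ext σ
  rw [Finset.mem_filter, Finset.mem_filter]
  constructor <;> exact fun h => ⟨Finset.mem_univ _, h.2⟩

theorem gg_signed {D : ℕ} {V : Type} [Fintype V] (G : SimpleGraph V) (F : Fin D → V → V)
    (hF : IsFactorizationOf G F) (hN : signedNumber F ≠ 0) : GG D G := by
  have hne : ∀ i v, F i v ≠ v := fun i v h => ((hF.2.2 v v).2 ⟨i, h⟩).ne rfl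
  have h1 := fam_GG F hF.1 hne hF.2.1 (by rw [← signed_eq]; exact hN)
  refine gg_sub G _ id Function.injective_id ?_ h1
  intro u v h
  exact (Pool.Agent.TH378.LC.fgraph_adj F hF.1 hne u v).2 ((hF.2.2 u v).1 h)

theorem seeded_spec {D : ℕ} {V : Type} {G : SimpleGraph V} (h : Seeded D V G) :
    Finite V ∧ GG D G := by
  induction h with
  | edgeless D V hV => exact ⟨hV, gg_bot D⟩
  | signed D V G F hF hN => exact ⟨inferInstance, gg_signed G F hF hN⟩
  | complete p hp hp2 V hV hc => exact ⟨hV, gg_complete p hp hp2 V hc⟩
  | completeTwo p hp hp2 V hV hc => exact ⟨hV, gg_complete2 p hp hp2 V hc⟩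
  | more D D' hD V G h ih => exact ⟨ih.1, gg_mono hD ih.2⟩
  | addEdge D V G G' u v huv hn hd hG' h ih =>
    exact ⟨ih.1, gg_add G ih.2 u v huv hn hd G' hG'⟩
  | double D V G S hS h ih =>
    have := ih.1
    exact ⟨inferInstance, gg_dbl G ih.2 S hS⟩
  | embed D V V' G G' φ hφ hom h ih =>
    have := ih.1
    exact ⟨Finite.of_injective φ hφ, gg_sub G' G φ hφ hom ih.2⟩
  | product D r V W G H hd hH h ih =>
    have := ih.1
    have := mirror_finite hH
    exact ⟨inferInstance, gg_prod G ih.2 hd hH⟩

theorem regular_product {D r : ℕ} {V : Type} [Finite V] {G : SimpleGraph V} (hG : GG D G)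
    (hd : ∀ v, (G.neighborSet v).ncard = D) (hne : Nonempty V) {W : Type} {H : SimpleGraph W}
    (hH : Mirror r W H) (hr : ∃ w, (H.neighborSet w).ncard = r) :
    ListEdgeConjectureFor (G.boxProd H) := by
  obtain ⟨w, hw⟩ := hr
  intro k
  have := mirror_finite hH
  refine lec_of (D := D + r) _ (gg_prod G (gg_mono (Nat.le_add_right D r) hG)
    (fun v => ?_) hH) ⟨(Classical.arbitrary V, w), ?_⟩ k
  · exact Nat.add_le_add_right (hd v).le r
  · rw [dgr_box]
    exact Nat.add_le_add (hd _).symm.le hw.symm.le

theorem top_deg {V : Type} [Finite V] (n : ℕ) (h : Nat.card V = n + 1) (v : V) :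
    ((⊤ : SimpleGraph V).neighborSet v).ncard = n := by
  have h1 : (⊤ : SimpleGraph V).neighborSet v = {v}ᶜ := by
    ext w
    rw [SimpleGraph.mem_neighborSet, SimpleGraph.top_adj, Set.mem_compl_iff,
      Set.mem_singleton_iff]
    exact ⟨fun h h' => h h'.symm, fun h h' => h h'.symm⟩
  have h2 := Set.ncard_add_ncard_compl ({v} : Set V)
  rw [Set.ncard_singleton, h] at h2
  rw [h1]
  omega

/-- (1) Let `p` be an odd prime and let `G` be a complete graph with `p + 1` or `2p` vertices. The
list edge-colouring conjecture holds for the Cartesian product of `G` and every graph in `Mirror r`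
which has a vertex of degree `r`. (2) The same for every finite `d`-regular graph `G` with a
1-factorization whose signed number is not zero. (3) `Mirror r` contains the hypercube of dimension
`r`, the forests of maximum degree at most `r`, for `r = 2` all even cycles, and the product of a
graph in `Mirror r` and one in `Mirror r'` is in `Mirror (r + r')`. (4) All graphs in `Seeded D` are
`D`-edge-choosable and the list edge-colouring conjecture holds for those which are not
`(D - 1)`-edge-colourable. -/
theorem result :
    (∀ (p : ℕ), p.Prime → p ≠ 2 → ∀ (V : Type) [Finite V],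
      (Nat.card V = p + 1 ∨ Nat.card V = 2 * p) →
      ∀ (r : ℕ) (W : Type) (H : SimpleGraph W), Mirror r W H →
        (∃ w, (H.neighborSet w).ncard = r) →
        ListEdgeConjectureFor ((⊤ : SimpleGraph V).boxProd H)) ∧
    (∀ (d : ℕ) (V : Type) [Fintype V] (G : SimpleGraph V) (F : Fin d → V → V), Nonempty V →
      IsFactorizationOf G F → signedNumber F ≠ 0 →
      ∀ (r : ℕ) (W : Type) (H : SimpleGraph W), Mirror r W H →
        (∃ w, (H.neighborSet w).ncard = r) → ListEdgeConjectureFor (G.boxProd H)) ∧
    ((∀ r, Mirror r (Fin r → Bool) (cube r)) ∧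
      (∀ m, 2 ≤ m → Mirror 2 (Fin (2 * m)) (SimpleGraph.cycleGraph (2 * m))) ∧
      (∀ (r : ℕ) (W : Type) [Finite W] (H : SimpleGraph W), Degen 1 H →
        (∀ w, (H.neighborSet w).ncard ≤ r) → Mirror r W H) ∧
      (∀ (r r' : ℕ) (W W' : Type) (H : SimpleGraph W) (H' : SimpleGraph W'), Mirror r W H →
        Mirror r' W' H' → Mirror (r + r') (W × W') (H.boxProd H'))) ∧
    (∀ (D : ℕ) (V : Type) (G : SimpleGraph V), Seeded D V G →
      EdgeChoosable D G ∧ (¬ G.lineGraph.Colorable (D - 1) → ListEdgeConjectureFor G)) := by
  refine ⟨?_, ?_, ⟨mirror_cube, mirror_cycle, ?_, ?_⟩, ?_⟩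
  · intro p hp hp2 V _ hV r W H hH hr
    have hpos := hp.pos
    have hne : Nonempty V := by
      refine (Nat.card_pos_iff.1 ?_).1
      omega
    rcases hV with hV | hV
    · exact regular_product (gg_complete p hp hp2 V hV) (top_deg p hV) hne hH hr
    · exact regular_product (gg_complete2 p hp hp2 V hV) (top_deg (2 * p - 1) (by omega)) hne
        hH hr
  · intro d V _ G F hne hF hN r W H hH hr
    refine regular_product (gg_signed G F hF hN) (fun v => ?_) hne hH hr
    have h1 : G.neighborSet v = Set.range (fun i => F i v) := by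
      ext w
      rw [SimpleGraph.mem_neighborSet, hF.2.2]
      rfl
    rw [h1, ← Set.image_univ, Set.ncard_image_of_injective _ (fun i j h => hF.2.1 v i j h),
      Set.ncard_univ, Nat.card_eq_fintype_card, Fintype.card_fin]
  · intro r W _ H h1 h2
    exact mirror_forest H h1 h2
  · intro r r' W W' H H' h h'
    exact mirror_prod h h'
  · intro D V G h
    have := (seeded_spec h).1
    have h1 := gg_EL G (seeded_spec h).2
    exact ⟨h1, fun h2 c => Pool.Agent.W426.LE.EL.lec G D h1 h2 c⟩

end Pool.Agent.Results.MP_2f9829_co.ProductsWithSignedGraphs
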